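import Pool.Agent.UA.Pair
import Pool.Agent.UA.Main

/-!
# A relatively prime unitary amicable pair has more than 10000 prime factors
-/

namespace Pool.Agent.Results.MP_290fce_nt.ManyPrimeFactors

open Pool.Agent.UA

theorem result (m n : ℕ) (hm : 0 < m) (hn : 0 < n) (hne : m ≠ n)
    (h1 : usigma m = m + n) (h2 : usigma n = m + n) (hc : Nat.Coprime m n) :
    10000 < (m * n).primeFactors.card :=
  conf_card (pair_conf hm hn hne h1 h2 hc)

end Pool.Agent.Results.MP_290fce_nt.ManyPrimeFactors
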