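import Pool.Agent.UA.Arith
import Mathlib.Analysis.SpecialFunctions.Log.Basic

/-!
# Unitary amicable pairs with a given number of components

For a pair with `usigma m = usigma n = m + n` one has `m / usigma m + n / usigma n = 1`, and both
quotients are products of `q / (q + 1)` over the prime powers `q` exactly dividing `m`, `n`.
-/

namespace Pool.Agent.Results.MP_290fce_nt.SylvesterBound

open Pool.Agent.UA

/-- `sylv k` is the product of the first `k` terms of Sylvester's sequence `2, 3, 7, 43, ...`. -/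
def sylv : ℕ → ℕ
  | 0 => 1
  | k + 1 => sylv k * (sylv k + 1)

theorem sylv_pos (k : ℕ) : 0 < sylv k := by
  induction k with
  | zero => exact Nat.one_pos
  | succ k ih => exact Nat.mul_pos ih (Nat.succ_pos _)

theorem sylv_lt (k : ℕ) : sylv k + 1 ≤ 2 ^ 2 ^ k := by
  induction k with
  | zero => simp [sylv]
  | succ k ih =>
    rw [pow_succ, pow_mul]
    calc sylv k * (sylv k + 1) + 1 ≤ (sylv k + 1) ^ 2 := by nlinarith
      _ ≤ (2 ^ 2 ^ k) ^ 2 := by gcongr

/-! ## The inequality for sequences -/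

theorem sum_lt (x y : ℕ → ℝ) (n : ℕ) (hx : ∀ i < n, 0 < x i) (hy : ∀ i < n, 0 < y i)
    (hanti : ∀ i, i + 1 < n → y (i + 1) ≤ y i)
    (hprod : ∀ j < n, ∏ i ∈ Finset.range (j + 1), y i < ∏ i ∈ Finset.range (j + 1), x i)
    (hn : 0 < n) : ∑ i ∈ Finset.range n, y i < ∑ i ∈ Finset.range n, x i := by
  have hL : ∀ j < n, 0 < ∑ i ∈ Finset.range (j + 1), Real.log (x i / y i) := by
    intro j hj
    have hlt : ∀ i ∈ Finset.range (j + 1), i < n := fun i hi => by
      have := Finset.mem_range.1 hi; omega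
    rw [← Real.log_prod (fun i hi => (div_pos (hx i (hlt i hi)) (hy i (hlt i hi))).ne')]
    apply Real.log_pos
    rw [Finset.prod_div_distrib, one_lt_div (Finset.prod_pos fun i hi => hy i (hlt i hi))]
    exact hprod j hj
  have hl : ∀ i < n, y i * Real.log (x i / y i) ≤ x i - y i := by
    intro i hi
    have h1 := Real.log_le_sub_one_of_pos (div_pos (hx i hi) (hy i hi))
    have h2 := mul_le_mul_of_nonneg_left h1 (hy i hi).le
    have h3 : y i * (x i / y i - 1) = x i - y i := by
      have := (hy i hi).ne'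
      field_simp
    linarith
  have key : ∀ j < n, y j * ∑ i ∈ Finset.range (j + 1), Real.log (x i / y i) ≤
      ∑ i ∈ Finset.range (j + 1), (x i - y i) := by
    intro j
    induction j with
    | zero => intro hj; simpa using hl 0 hj
    | succ j ih =>
      intro hj
      have h1 := ih (by omega)
      have h2 := hL j (by omega)
      have h3 := hanti j hj
      have h4 := hl (j + 1) hj
      rw [Finset.sum_range_succ, Finset.sum_range_succ (fun i => x i - y i), mul_add]
      have h5 := mul_le_mul_of_nonneg_right h3 h2.le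
      linarith
  obtain ⟨k, rfl⟩ : ∃ k, n = k + 1 := ⟨n - 1, by omega⟩
  have h1 := key k (by omega)
  have h2 := mul_pos (hy k (by omega)) (hL k (by omega))
  rw [Finset.sum_sub_distrib] at h1
  linarith

theorem seq_bound (K : ℕ) (hK : 0 < K) (a : ℕ → ℝ) (ha : ∀ i < K, 0 < a i)
    (hanti : ∀ i, i + 1 < K → a (i + 1) ≤ a i)
    (hc : ∀ r < K, ∏ i ∈ Finset.range r, a i ≤ ∑ i ∈ Finset.Ico r K, a i) :
    1 / (sylv (K - 1) : ℝ) ^ 2 ≤ ∏ i ∈ Finset.range K, a i := by
  classical
  by_contra hcon
  rw [not_le] at hcon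
  have hP : ∀ k, (0 : ℝ) < sylv k := fun k => by exact_mod_cast sylv_pos k
  have hPs : ∀ k, (sylv (k + 1) : ℝ) = sylv k * (sylv k + 1) := fun k => by
    rw [sylv]; push_cast; ring
  set s : ℕ → ℝ := fun i => if i + 1 < K then 1 / ((sylv i : ℝ) + 1) else 1 / (sylv i : ℝ)
    with hs
  have hs0 : ∀ i, 0 < s i := by
    intro i
    have := hP i
    simp only [hs]
    split_ifs <;> positivity
  have hS : ∀ r < K, ∏ i ∈ Finset.range r, s i = 1 / (sylv r : ℝ) := by
    intro r
    induction r with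
    | zero => intro _; simp [sylv]
    | succ r ih =>
      intro hr
      have := hP r
      rw [Finset.prod_range_succ, ih (by omega), hPs]
      simp only [hs, if_pos hr]
      field_simp
  have hSK : ∏ i ∈ Finset.range K, s i = 1 / (sylv (K - 1) : ℝ) ^ 2 := by
    obtain ⟨k, rfl⟩ : ∃ k, K = k + 1 := ⟨K - 1, by omega⟩
    rw [Finset.prod_range_succ, hS k (by omega)]
    have := hP k
    simp only [hs, lt_irrefl, if_false, Nat.add_sub_cancel]
    field_simp
  have hT : ∀ d < K, ∑ i ∈ Finset.Ico (K - 1 - d) K, s i = 1 / (sylv (K - 1 - d) : ℝ) := by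
    intro d
    induction d with
    | zero =>
      intro _
      obtain ⟨k, rfl⟩ : ∃ k, K = k + 1 := ⟨K - 1, by omega⟩
      simp [hs]
    | succ d ih =>
      intro hd
      have h1 := ih (by omega)
      obtain ⟨r, hr⟩ : ∃ r, K - 1 - (d + 1) = r := ⟨_, rfl⟩
      have hr1 : K - 1 - d = r + 1 := by omega
      rw [hr1] at h1
      rw [hr, Finset.sum_eq_sum_Ico_succ_bot (by omega), h1, hPs]
      have := hP r
      simp only [hs, if_pos (show r + 1 < K by omega)]
      field_simp
  have hT' : ∀ r < K, ∑ i ∈ Finset.Ico r K, s i = 1 / (sylv r : ℝ) := by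
    intro r hr
    have := hT (K - 1 - r) (by omega)
    rwa [show K - 1 - (K - 1 - r) = r by omega] at this
  -- the largest index with a product at least that of the comparison sequence
  set Q : ℕ → Prop := fun r => ∏ i ∈ Finset.range r, s i ≤ ∏ i ∈ Finset.range r, a i with hQ
  set r := Nat.findGreatest Q (K - 1) with hr
  have hrK : r < K := by
    have := Nat.findGreatest_le (P := Q) (K - 1)
    omega
  have hQr : Q r := Nat.findGreatest_spec (P := Q) (Nat.zero_le _) (by simp [hQ])
  have hgt : ∀ j, r < j → j ≤ K → ∏ i ∈ Finset.range j, a i < ∏ i ∈ Finset.range j, s i := by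
    intro j hj hjK
    rcases Nat.lt_or_ge (K - 1) j with h | h
    · have : j = K := by omega
      rw [this, hSK]; exact hcon
    · exact not_le.1 (Nat.findGreatest_is_greatest hj h)
  have hAr : 0 < ∏ i ∈ Finset.range r, a i :=
    Finset.prod_pos fun i hi => ha i (by have := Finset.mem_range.1 hi; omega)
  have hlt := sum_lt (fun i => s (r + i)) (fun i => a (r + i)) (K - r) (fun i _ => hs0 _)
    (fun i hi => ha _ (by omega)) (fun i hi => hanti (r + i) (by omega)) (by
      intro j hj
      have h1 := hgt (r + (j + 1)) (by omega) (by omega)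
      rw [Finset.prod_range_add a r (j + 1), Finset.prod_range_add s r (j + 1)] at h1
      have h2 : 0 < ∏ i ∈ Finset.range (j + 1), s (r + i) := Finset.prod_pos fun i _ => hs0 _
      have h3 := h1.trans_le (mul_le_mul_of_nonneg_right hQr h2.le)
      exact lt_of_mul_lt_mul_left h3 hAr.le) (by omega)
  rw [← Finset.sum_Ico_eq_sum_range, ← Finset.sum_Ico_eq_sum_range, hT' r hrK, ← hS r hrK] at hlt
  exact absurd (hc r hrK) (not_le.2 (hlt.trans_le hQr))

theorem exists_enum {ι : Type*} [DecidableEq ι] [Inhabited ι] (q : ι → ℕ) (I : Finset ι) :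
    ∃ e : ℕ → ι, (∀ i < I.card, ∀ j < I.card, e i = e j → i = j) ∧
      (Finset.range I.card).image e = I ∧ ∀ i, i + 1 < I.card → q (e i) ≤ q (e (i + 1)) := by
  induction I using Finset.induction_on_max_value q with
  | empty => exact ⟨fun _ => default, by simp, by simp, by simp⟩
  | insert a s ha hmax ih =>
    obtain ⟨e, hinj, him, hmono⟩ := ih
    have hmem : ∀ i < s.card, e i ∈ s := fun i hi => by
      have h := Finset.mem_image_of_mem e (Finset.mem_range.2 hi)
      rwa [him] at h
    have hc : (insert a s).card = s.card + 1 := Finset.card_insert_of_notMem ha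
    refine ⟨fun i => if i < s.card then e i else a, ?_, ?_, ?_⟩
    · intro i hi j hj hij
      rw [hc] at hi hj
      simp only at hij
      split_ifs at hij with h1 h2 h2
      · exact hinj i h1 j h2 hij
      · exact absurd (hij ▸ hmem i h1) ha
      · exact absurd (hij.symm ▸ hmem j h2) ha
      · omega
    · rw [hc, Finset.range_add_one, Finset.image_insert]
      simp only [lt_irrefl, if_false]
      congr 1
      conv_rhs => rw [← him]
      apply Finset.image_congr
      intro i hi
      have : i < s.card := by simpa using hi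
      simp [this]
    · intro i hi
      rw [hc] at hi
      simp only
      rcases Nat.lt_or_ge (i + 1) s.card with h | h
      · rw [if_pos (by omega), if_pos h]; exact hmono i h
      · rw [if_pos (by omega), if_neg (by omega)]
        exact hmax _ (hmem i (by omega))

theorem finset_bound {ι : Type*} [DecidableEq ι] [Inhabited ι] (I : Finset ι) (hI : 0 < I.card)
    (q : ι → ℕ)
    (h : ∀ T ⊆ I, T.card < I.card →
      1 / ∏ i ∈ T, ((q i : ℝ) + 1) ≤ ∑ i ∈ I \ T, 1 / ((q i : ℝ) + 1)) :
    ∏ i ∈ I, (q i + 1) ≤ sylv (I.card - 1) ^ 2 := by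
  obtain ⟨e, hinj, him, hmono⟩ := exists_enum q I
  set K := I.card with hK
  set a : ℕ → ℝ := fun i => 1 / ((q (e i) : ℝ) + 1) with ha
  have hprod : ∀ r ≤ K, ∏ i ∈ Finset.range r, a i =
      1 / ∏ i ∈ (Finset.range r).image e, ((q i : ℝ) + 1) := by
    intro r hr
    rw [Finset.prod_image (fun i hi j hj hij => hinj i
      (by have : i < r := by simpa using hi
          omega) j
      (by have : j < r := by simpa using hj
          omega) hij)]
    simp only [ha, one_div, Finset.prod_inv_distrib]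
  have hb := seq_bound K hI a (fun i _ => by simp only [ha]; positivity) (by
      intro i hi
      simp only [ha]
      have : (q (e i) : ℝ) ≤ q (e (i + 1)) := by exact_mod_cast hmono i hi
      exact one_div_le_one_div_of_le (by positivity) (by linarith)) (by
      intro r hr
      have hsub : (Finset.range r).image e ⊆ I := by
        rw [← him]
        exact Finset.image_subset_image (Finset.range_subset_range.2 hr.le)
      have hcard : ((Finset.range r).image e).card = r := by
        rw [Finset.card_image_of_injOn (fun i hi j hj hij => hinj i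
          (by have : i < r := by simpa using hi
              omega) j
          (by have : j < r := by simpa using hj
              omega) hij), Finset.card_range]
      have hsd : I \ (Finset.range r).image e = (Finset.Ico r K).image e := by
        ext z
        rw [Finset.mem_sdiff, Finset.mem_image, Finset.mem_image]
        constructor
        · rintro ⟨hz, hn⟩
          rw [← him, Finset.mem_image] at hz
          obtain ⟨i, hi, rfl⟩ := hz
          refine ⟨i, Finset.mem_Ico.2 ⟨?_, Finset.mem_range.1 hi⟩, rfl⟩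
          by_contra hlt
          exact hn ⟨i, Finset.mem_range.2 (by omega), rfl⟩
        · rintro ⟨i, hi, rfl⟩
          have hi' := Finset.mem_Ico.1 hi
          refine ⟨?_, ?_⟩
          · rw [← him]; exact Finset.mem_image_of_mem e (Finset.mem_range.2 hi'.2)
          · rintro ⟨j, hj, hji⟩
            have hj' := Finset.mem_range.1 hj
            have := hinj j (by omega) i hi'.2 hji
            omega
      have h1 := h _ hsub (by rw [hcard]; exact hr)
      rw [hsd, Finset.sum_image (fun i hi j hj hij => hinj i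
        (by have : r ≤ i ∧ i < K := by simpa using hi
            exact this.2) j
        (by have : r ≤ j ∧ j < K := by simpa using hj
            exact this.2) hij), ← hprod r hr.le] at h1
      exact h1)
  rw [hprod K le_rfl, him] at hb
  have hpos : (0 : ℝ) < ∏ i ∈ I, ((q i : ℝ) + 1) := Finset.prod_pos fun i _ => by positivity
  have hsp : (0 : ℝ) < (sylv (K - 1) : ℝ) ^ 2 := by
    have : (0 : ℝ) < sylv (K - 1) := by exact_mod_cast sylv_pos _
    positivity
  have h2 : ∏ i ∈ I, ((q i : ℝ) + 1) ≤ (sylv (K - 1) : ℝ) ^ 2 :=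
    (one_div_le_one_div hsp hpos).1 hb
  exact_mod_cast h2

/-! ## The components of a pair -/

theorem prod_le_single {ι : Type*} [DecidableEq ι] (R : Finset ι) (f : ι → ℝ)
    (h0 : ∀ i ∈ R, 0 ≤ f i) (h1 : ∀ i ∈ R, f i ≤ 1) {j : ι} (hj : j ∈ R) :
    ∏ i ∈ R, f i ≤ f j := by
  rw [← Finset.mul_prod_erase R f hj]
  have h2 : ∏ i ∈ R.erase j, f i ≤ 1 :=
    Finset.prod_le_one (fun i hi => h0 i (Finset.mem_of_mem_erase hi))
      (fun i hi => h1 i (Finset.mem_of_mem_erase hi))
  nlinarith [h0 j hj]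

theorem one_sub_le_prod {ι : Type*} [DecidableEq ι] (R : Finset ι) (f : ι → ℝ)
    (h0 : ∀ i ∈ R, 0 ≤ f i) (h1 : ∀ i ∈ R, f i ≤ 1) :
    1 - ∑ i ∈ R, (1 - f i) ≤ ∏ i ∈ R, f i := by
  induction R using Finset.induction_on with
  | empty => simp
  | insert a s ha ih =>
    rw [Finset.prod_insert ha, Finset.sum_insert ha]
    have h2 := ih (fun i hi => h0 i (Finset.mem_insert_of_mem hi))
      (fun i hi => h1 i (Finset.mem_insert_of_mem hi))
    have h3 : ∏ i ∈ s, f i ≤ 1 :=
      Finset.prod_le_one (fun i hi => h0 i (Finset.mem_insert_of_mem hi))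
        (fun i hi => h1 i (Finset.mem_insert_of_mem hi))
    have h5 := h1 a (Finset.mem_insert_self a s)
    have h7 : (1 - f a) * ∏ i ∈ s, f i ≤ (1 - f a) * 1 :=
      mul_le_mul_of_nonneg_left h3 (by linarith)
    nlinarith

theorem nat_prod {ι : Type*} (T : Finset ι) (f : ι → ℝ) (h : ∀ i ∈ T, ∃ a : ℕ, f i = a) :
    ∃ a : ℕ, ∏ i ∈ T, f i = a := by
  refine Finset.prod_induction f (fun z => ∃ a : ℕ, z = a) ?_ ⟨1, by simp⟩ h
  rintro _ _ ⟨a, rfl⟩ ⟨b, rfl⟩
  exact ⟨a * b, by push_cast; rfl⟩

/-- The condition on the components outside a proper subset `T`. -/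
theorem step {ι : Type*} [DecidableEq ι] (I : Finset ι) (q : ι → ℕ) (x y : ι → ℝ)
    (hq : ∀ i ∈ I, 1 ≤ q i)
    (hxy : ∀ i ∈ I, (x i = q i / (q i + 1) ∧ y i = 1) ∨ (x i = 1 ∧ y i = q i / (q i + 1)))
    (h1 : ∏ i ∈ I, x i + ∏ i ∈ I, y i = 1) (T : Finset ι) (hTI : T ⊆ I)
    (hTc : T.card < I.card) :
    1 / ∏ i ∈ T, ((q i : ℝ) + 1) ≤ ∑ i ∈ I \ T, 1 / ((q i : ℝ) + 1) := by
  have hb : ∀ i ∈ I, (0 : ℝ) < q i / (q i + 1) ∧ (q i : ℝ) / (q i + 1) < 1 := by
    intro i hi
    have h := hq i hi
    have h' : (1 : ℝ) ≤ q i := by exact_mod_cast h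
    constructor
    · positivity
    · rw [div_lt_one (by positivity)]; linarith
  have hx0 : ∀ i ∈ I, 0 < x i := by
    intro i hi
    rcases hxy i hi with h | h
    · rw [h.1]; exact (hb i hi).1
    · rw [h.1]; exact one_pos
  have hy0 : ∀ i ∈ I, 0 < y i := by
    intro i hi
    rcases hxy i hi with h | h
    · rw [h.2]; exact one_pos
    · rw [h.2]; exact (hb i hi).1
  have hx1 : ∀ i ∈ I, x i ≤ 1 := by
    intro i hi
    rcases hxy i hi with h | h
    · rw [h.1]; exact (hb i hi).2.le
    · rw [h.1]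
  have hy1 : ∀ i ∈ I, y i ≤ 1 := by
    intro i hi
    rcases hxy i hi with h | h
    · rw [h.2]
    · rw [h.2]; exact (hb i hi).2.le
  have hR : (I \ T).Nonempty := by
    rw [← Finset.card_pos, Finset.card_sdiff_of_subset hTI]; omega
  obtain ⟨j, hj⟩ := hR
  have hjI : j ∈ I := (Finset.mem_sdiff.1 hj).1
  have hsub : ∀ i ∈ I \ T, i ∈ I := fun i hi => (Finset.mem_sdiff.1 hi).1
  -- the partial products
  set X := ∏ i ∈ T, x i with hX
  set Y := ∏ i ∈ T, y i with hY
  set X' := ∏ i ∈ I \ T, x i with hX'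
  set Y' := ∏ i ∈ I \ T, y i with hY'
  have e1 : X' * X + Y' * Y = 1 := by
    rw [hX, hY, hX', hY', Finset.prod_sdiff hTI, Finset.prod_sdiff hTI, h1]
  have hXp : 0 < X := Finset.prod_pos fun i hi => hx0 i (hTI hi)
  have hYp : 0 < Y := Finset.prod_pos fun i hi => hy0 i (hTI hi)
  have hX1 : X ≤ 1 :=
    Finset.prod_le_one (fun i hi => (hx0 i (hTI hi)).le) fun i hi => hx1 i (hTI hi)
  have hY1 : Y ≤ 1 :=
    Finset.prod_le_one (fun i hi => (hy0 i (hTI hi)).le) fun i hi => hy1 i (hTI hi)
  have hX'1 : X' ≤ x j := prod_le_single _ _ (fun i hi => (hx0 i (hsub i hi)).le)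
    (fun i hi => hx1 i (hsub i hi)) hj
  have hY'1 : Y' ≤ y j := prod_le_single _ _ (fun i hi => (hy0 i (hsub i hi)).le)
    (fun i hi => hy1 i (hsub i hi)) hj
  -- the sum of the partial products exceeds one
  have hs1 : 1 < X + Y := by
    have hxj := hx1 j hjI
    have hyj := hy1 j hjI
    rcases hxy j hjI with h | h
    · have : x j < 1 := by rw [h.1]; exact (hb j hjI).2
      nlinarith
    · have : y j < 1 := by rw [h.2]; exact (hb j hjI).2
      nlinarith
  -- integrality
  have hN : ∃ a : ℕ, (∏ i ∈ T, ((q i : ℝ) + 1)) * (X + Y) = a := by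
    obtain ⟨a, ha⟩ : ∃ a : ℕ, ∏ i ∈ T, (((q i : ℝ) + 1) * x i) = a := by
      apply nat_prod
      intro i hi
      rcases hxy i (hTI hi) with h | h
      · exact ⟨q i, by rw [h.1]; field_simp⟩
      · exact ⟨q i + 1, by rw [h.1]; push_cast; ring⟩
    obtain ⟨b, hb⟩ : ∃ a : ℕ, ∏ i ∈ T, (((q i : ℝ) + 1) * y i) = a := by
      apply nat_prod
      intro i hi
      rcases hxy i (hTI hi) with h | h
      · exact ⟨q i + 1, by rw [h.2]; push_cast; ring⟩
      · exact ⟨q i, by rw [h.2]; field_simp⟩
    refine ⟨a + b, ?_⟩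
    rw [mul_add, hX, hY, ← Finset.prod_mul_distrib, ← Finset.prod_mul_distrib, ha, hb]
    push_cast; rfl
  obtain ⟨a, ha⟩ := hN
  have hNc : (∏ i ∈ T, ((q i : ℝ) + 1)) = ((∏ i ∈ T, (q i + 1) : ℕ) : ℝ) := by push_cast; rfl
  rw [hNc] at ha ⊢
  set N := ∏ i ∈ T, (q i + 1) with hNdef
  have hNpos : 0 < N := Finset.prod_pos fun i _ => Nat.succ_pos _
  have hNq : (0 : ℝ) < N := by exact_mod_cast hNpos
  have ha1 : N < a := by
    have : (N : ℝ) < a := by rw [← ha]; nlinarith
    exact_mod_cast this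
  have ha2 : (N : ℝ) + 1 ≤ N * (X + Y) := by rw [ha]; exact_mod_cast ha1
  -- the lower bound for the remaining factors
  have hlx := one_sub_le_prod (I \ T) x (fun i hi => (hx0 i (hsub i hi)).le)
    (fun i hi => hx1 i (hsub i hi))
  have hly := one_sub_le_prod (I \ T) y (fun i hi => (hy0 i (hsub i hi)).le)
    (fun i hi => hy1 i (hsub i hi))
  have hsx : 0 ≤ ∑ i ∈ I \ T, (1 - x i) :=
    Finset.sum_nonneg fun i hi => by have := hx1 i (hsub i hi); linarith
  have hsy : 0 ≤ ∑ i ∈ I \ T, (1 - y i) :=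
    Finset.sum_nonneg fun i hi => by have := hy1 i (hsub i hi); linarith
  have hss : ∑ i ∈ I \ T, (1 - x i) + ∑ i ∈ I \ T, (1 - y i) =
      ∑ i ∈ I \ T, 1 / ((q i : ℝ) + 1) := by
    rw [← Finset.sum_add_distrib]
    refine Finset.sum_congr rfl fun i hi => ?_
    have h3 : (0 : ℝ) < (q i : ℝ) + 1 := by positivity
    have h4 : 1 - (q i : ℝ) / (q i + 1) = 1 / (q i + 1) := by field_simp; ring
    rcases hxy i (hsub i hi) with h | h
    · rw [h.1, h.2]; linarith
    · rw [h.1, h.2]; linarith
  rw [← hss]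
  set S := ∑ i ∈ I \ T, (1 - x i) with hS
  set S' := ∑ i ∈ I \ T, (1 - y i) with hS'
  have h5 : X + Y - (S + S') ≤ 1 := by
    have a1 : (1 - S) * X ≤ X' * X := mul_le_mul_of_nonneg_right hlx hXp.le
    have a2 : (1 - S') * Y ≤ Y' * Y := mul_le_mul_of_nonneg_right hly hYp.le
    have a3 : S * X ≤ S * 1 := mul_le_mul_of_nonneg_left hX1 hsx
    have a4 : S' * Y ≤ S' * 1 := mul_le_mul_of_nonneg_left hY1 hsy
    linarith
  have h7 : (N : ℝ) + 1 ≤ N * (1 + (S + S')) :=
    ha2.trans (mul_le_mul_of_nonneg_left (by linarith) hNq.le)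
  rw [div_le_iff₀ hNq]
  linarith

theorem prod_ratio {m : ℕ} (hm : 0 < m) :
    ∏ p ∈ m.primeFactors, (((p ^ m.factorization p : ℕ) : ℝ) / ((p ^ m.factorization p : ℕ) + 1))
      = m / usigma m := by
  rw [Finset.prod_div_distrib, usigma_eq hm.ne']
  congr 1
  · rw [← Nat.cast_prod]
    congr 1
    exact part_all hm.ne'
  · push_cast
    exact Finset.prod_congr rfl fun p _ => add_comm _ _

/-- The bounds for one pair. -/
theorem bound {m n : ℕ} (hm : 0 < m) (hn : 0 < n) (h1 : usigma m = m + n)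
    (h2 : usigma n = m + n) :
    (∀ A ⊆ m.primeFactors, ∀ B ⊆ n.primeFactors,
      A.card + B.card < m.primeFactors.card + n.primeFactors.card →
      1 / ((∏ p ∈ A, ((p : ℝ) ^ m.factorization p + 1)) *
          ∏ p ∈ B, ((p : ℝ) ^ n.factorization p + 1)) ≤
        ∑ p ∈ m.primeFactors \ A, 1 / ((p : ℝ) ^ m.factorization p + 1) +
          ∑ p ∈ n.primeFactors \ B, 1 / ((p : ℝ) ^ n.factorization p + 1)) ∧
    0 < m.primeFactors.card + n.primeFactors.card ∧
    m + n ≤ sylv (m.primeFactors.card + n.primeFactors.card - 1) := by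
  set I : Finset (ℕ ⊕ ℕ) := m.primeFactors.disjSum n.primeFactors with hI
  have hIc : I.card = m.primeFactors.card + n.primeFactors.card := by
    rw [hI, Finset.card_disjSum]
  rw [← hIc]
  set q : ℕ ⊕ ℕ → ℕ := Sum.elim (fun p => p ^ m.factorization p) (fun p => p ^ n.factorization p)
    with hq
  set x : ℕ ⊕ ℕ → ℝ := Sum.elim
    (fun p => ((p ^ m.factorization p : ℕ) : ℝ) / ((p ^ m.factorization p : ℕ) + 1))
    (fun _ => 1) with hx
  set y : ℕ ⊕ ℕ → ℝ := Sum.elim (fun _ => 1)
    (fun p => ((p ^ n.factorization p : ℕ) : ℝ) / ((p ^ n.factorization p : ℕ) + 1)) with hy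
  have hpx : ∏ i ∈ I, x i = m / (m + n) := by
    rw [hI, Finset.prod_disjSum]
    simp only [hx, Sum.elim_inl, Sum.elim_inr, Finset.prod_const_one, mul_one]
    rw [prod_ratio hm, h1]; push_cast; rfl
  have hpy : ∏ i ∈ I, y i = n / (m + n) := by
    rw [hI, Finset.prod_disjSum]
    simp only [hy, Sum.elim_inl, Sum.elim_inr, Finset.prod_const_one, one_mul]
    rw [prod_ratio hn, h2]; push_cast; rfl
  have hsum : ∏ i ∈ I, x i + ∏ i ∈ I, y i = 1 := by
    rw [hpx, hpy, ← add_div]
    apply div_self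
    have : (0 : ℝ) < m := by exact_mod_cast hm
    positivity
  have hK : 0 < I.card := by
    rcases Nat.eq_zero_or_pos I.card with h | h
    · rw [Finset.card_eq_zero] at h
      rw [h] at hsum
      norm_num at hsum
    · exact h
  have hq1 : ∀ i ∈ I, 1 ≤ q i := by
    intro i hi
    rw [hI, Finset.mem_disjSum] at hi
    rcases hi with ⟨p, hp, rfl⟩ | ⟨p, hp, rfl⟩
    · exact Nat.one_le_pow _ _ (Nat.prime_of_mem_primeFactors hp).pos
    · exact Nat.one_le_pow _ _ (Nat.prime_of_mem_primeFactors hp).pos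
  have hxy : ∀ i ∈ I, (x i = q i / (q i + 1) ∧ y i = 1) ∨ (x i = 1 ∧ y i = q i / (q i + 1)) := by
    rintro (p | p) _
    · left; simp only [hx, hy, hq, Sum.elim_inl, and_self]
    · right; simp only [hx, hy, hq, Sum.elim_inr, and_self]
  have hstep := step I q x y hq1 hxy hsum
  refine ⟨?_, hK, ?_⟩
  · intro A hA B hB hAB
    have hT : A.disjSum B ⊆ I := Finset.disjSum_mono hA hB
    have hTc : (A.disjSum B).card = A.card + B.card := Finset.card_disjSum _ _
    have hb := hstep (A.disjSum B) hT (by rw [hTc]; exact hAB)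
    have hsd : I \ A.disjSum B = (m.primeFactors \ A).disjSum (n.primeFactors \ B) := by
      ext j
      rcases j with p | p <;> simp [hI]
    rw [hsd, Finset.prod_disjSum, Finset.sum_disjSum] at hb
    simpa only [hq, Sum.elim_inl, Sum.elim_inr, Nat.cast_pow] using hb
  · have hb := finset_bound I hK q hstep
    have hprod : ∏ i ∈ I, (q i + 1) = (m + n) ^ 2 := by
      rw [hI, Finset.prod_disjSum]
      simp only [hq, Sum.elim_inl, Sum.elim_inr]
      have e1 : ∏ p ∈ m.primeFactors, (p ^ m.factorization p + 1) = m + n := by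
        rw [← h1, usigma_eq hm.ne']
        exact Finset.prod_congr rfl fun p _ => add_comm _ _
      have e2 : ∏ p ∈ n.primeFactors, (p ^ n.factorization p + 1) = m + n := by
        rw [← h2, usigma_eq hn.ne']
        exact Finset.prod_congr rfl fun p _ => add_comm _ _
      rw [e1, e2, sq]
    rw [hprod] at hb
    exact (Nat.pow_le_pow_iff_left (by norm_num)).1 hb

theorem result :
    (∀ m n : ℕ, 0 < m → 0 < n → usigma m = m + n → usigma n = m + n →
      m + n ≤ sylv (m.primeFactors.card + n.primeFactors.card - 1) ∧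
      m + n < 2 ^ 2 ^ (m.primeFactors.card + n.primeFactors.card - 1) ∧
      ∀ A ⊆ m.primeFactors, ∀ B ⊆ n.primeFactors,
        A.card + B.card < m.primeFactors.card + n.primeFactors.card →
        1 / ((∏ p ∈ A, ((p : ℝ) ^ m.factorization p + 1)) *
            ∏ p ∈ B, ((p : ℝ) ^ n.factorization p + 1)) ≤
          ∑ p ∈ m.primeFactors \ A, 1 / ((p : ℝ) ^ m.factorization p + 1) +
            ∑ p ∈ n.primeFactors \ B, 1 / ((p : ℝ) ^ n.factorization p + 1)) ∧
    ∀ K : ℕ, {P : ℕ × ℕ | 0 < P.1 ∧ 0 < P.2 ∧ usigma P.1 = P.1 + P.2 ∧ usigma P.2 = P.1 + P.2 ∧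
      P.1.primeFactors.card + P.2.primeFactors.card ≤ K}.Finite := by
  have hlt : ∀ m n : ℕ, 0 < m → 0 < n → usigma m = m + n → usigma n = m + n →
      m + n < 2 ^ 2 ^ (m.primeFactors.card + n.primeFactors.card - 1) := by
    intro m n hm hn h1 h2
    have h3 := (bound hm hn h1 h2).2.2
    have h4 := sylv_lt (m.primeFactors.card + n.primeFactors.card - 1)
    omega
  refine ⟨fun m n hm hn h1 h2 =>
    ⟨(bound hm hn h1 h2).2.2, hlt m n hm hn h1 h2, (bound hm hn h1 h2).1⟩, fun K => ?_⟩
  refine Set.Finite.subset (Set.finite_Iic ((2 ^ 2 ^ K, 2 ^ 2 ^ K) : ℕ × ℕ)) ?_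
  rintro ⟨m, n⟩ ⟨hm, hn, h1, h2, hK⟩
  simp only at hm hn h1 h2 hK
  have h3 := hlt m n hm hn h1 h2
  have h4 : 2 ^ 2 ^ (m.primeFactors.card + n.primeFactors.card - 1) ≤ 2 ^ 2 ^ K :=
    Nat.pow_le_pow_right (by norm_num) (Nat.pow_le_pow_right (by norm_num) (by omega))
  rw [Set.mem_Iic, Prod.mk_le_mk]
  constructor <;> omega

end Pool.Agent.Results.MP_290fce_nt.SylvesterBound
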